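import Pool.Agent.helper51.RMX.Spec

/-!
# Row rmx:RSX (MP_24e2e7_nt): residues of the elements of relative norm 1, the exact index
-/

set_option autoImplicit false

namespace Pool.Agent.RMX

open Pool.Agent.RB NumberField IsDedekindDomain Module
open scoped nonZeroDivisors Real Classical IsMulCommutative

section one

variable {K : Type} [Field K] [NumberField K]

theorem RSX_index (P : HOS K) (X X₁ : Subgroup Kˣ) (hX : ∀ x ∈ X, P.valuation K (x : K) ≤ 1)
    (h1 : ∀ x ∈ X, P.valuation K ((x : K) - 1) < 1 → x ∈ X₁)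
    (h2 : ∀ x ∈ X, x ∈ X₁ → P.valuation K ((x : K) - 1) < 1) :
    X₁.relIndex X = Nat.card (RES_hom P X hX).range := by
  rw [← Subgroup.index_ker]
  have e : X₁.subgroupOf X = (RES_hom P X hX).ker := by
    ext x
    rw [Subgroup.mem_subgroupOf, MonoidHom.mem_ker]
    constructor
    · intro hx
      apply Units.ext
      rw [RES_hom_apply, Units.val_one]
      have h3 := h2 _ x.2 hx
      have h4 : P.valuation K (((1 : 𝓞 K) : K) - ((x : Kˣ) : K)) < 1 := by
        have e0 : ((1 : 𝓞 K) : K) - ((x : Kˣ) : K) = -(((x : Kˣ) : K) - 1) := by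
          have e1 : ((1 : 𝓞 K) : K) = 1 := rfl
          rw [e1]; ring
        rw [e0, Valuation.map_neg]
        exact h3
      rw [RES_r_spec P _ 1 h4, map_one]
    · intro hx
      refine h1 _ x.2 (RES_r_eq_one P _ (hX _ x.2) ?_)
      rw [← RES_hom_apply P X hX x, hx, Units.val_one]
  rw [← e]
  rfl

/-- integral elements outside `P` have value one -/
theorem RSX_val (P : HOS K) (y : 𝓞 K) (hy : y ∉ P.asIdeal) : P.valuation K (y : K) = 1 := by
  have h1 : ¬ P.valuation K (algebraMap (𝓞 K) K y) < 1 := by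
    rw [P.valuation_lt_one_iff_mem]
    exact hy
  exact le_antisymm (P.valuation_le_one y) (not_lt.1 h1)

/-- the element `y / c y` -/
theorem RSX_mem (c : K ≃+* K) (hcc : ∀ x, c (c x) = x) (W : Set (HOS K)) (y : K) (hy : y ≠ 0)
    (h : ∀ P, P ∉ W → P.valuation K y = 1 ∧ P.valuation K (c y) = 1)
    (hne : y / c y ≠ 0) : Units.mk0 (y / c y) hne ∈ Ml c W ∅ := by
  have hcy : c y ≠ 0 := by
    intro h0
    apply hy
    have := congrArg c h0
    rwa [hcc, map_zero] at this
  refine ⟨?_, fun P hP => ?_, fun P hP => absurd hP (Set.notMem_empty P)⟩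
  · rw [Units.val_mk0, map_div₀, hcc]
    field_simp
  · rw [Units.val_mk0]
    obtain ⟨h1, h2⟩ := h P hP
    refine ((ORD K).2.2.1 _ P hne).2 ?_
    rw [map_div₀, h1, h2, div_one]

/-- the residue of `y / c y` -/
theorem RSX_res (P : HOS K) (y z : 𝓞 K) (hy : P.valuation K (y : K) = 1)
    (hz : P.valuation K (z : K) = 1) :
    RES_r P ((y : K) / (z : K)) * Ideal.Quotient.mk P.asIdeal z = Ideal.Quotient.mk P.asIdeal y := by
  have h1 : P.valuation K ((y : K) / (z : K)) ≤ 1 := by
    rw [map_div₀, hy, hz, div_one]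
  have hz0 : (z : K) ≠ 0 := by
    intro h0
    rw [h0, map_zero] at hz
    exact zero_ne_one hz
  have h2 : RES_r P (z : K) = Ideal.Quotient.mk P.asIdeal z :=
    RES_r_spec P _ z (by rw [sub_self, map_zero]; exact zero_lt_one)
  have h3 : RES_r P (y : K) = Ideal.Quotient.mk P.asIdeal y :=
    RES_r_spec P _ y (by rw [sub_self, map_zero]; exact zero_lt_one)
  rw [← h2, ← RES_r_mul P _ _ h1 hz.le, div_mul_cancel₀ _ hz0, h3]

end one

theorem RSX : RSX_stmt := by
  intro k K _ _ _ _ _ _ c hc hck q hq
  have hdvd := RES ORD TYP k K c hc hck q hq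
  set c' : K ≃ₐ[k] K := AlgEquiv.ofRingEquiv (f := c) hck with hc'def
  have hcc : (c' : K ≃+* K) = c := rfl
  have hc' : c' ≠ 1 := by
    intro h
    apply hc
    apply RingEquiv.ext
    intro x
    have h1 := congrArg (fun f : K ≃ₐ[k] K => f x) h
    exact h1
  have hinv : ∀ x, c (c x) = x := RES_sq c' hc'
  obtain ⟨o1, o2, o3, o4, o5, o6, o7, o8, o9⟩ := ORD K
  have hval : ∀ x ∈ Ml c {P : HOS K | P.under (𝓞 k) ≠ q} ∅, ∀ P : HOS K, P.under (𝓞 k) = q →
      P.valuation K (x : K) = 1 := by
    intro x hx P hP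
    rw [← o3 _ P x.ne_zero]
    exact hx.2.1 P (fun h => h hP)
  rcases TYP k K c' hc' q with ⟨ht, P, P', hne, hset, hn, hn', hact, hact', -⟩ |
    ⟨ht, P, hset, hn, hact, -⟩ | ⟨ht, -⟩
  · have hP : P.under (𝓞 k) = q := by
      have : P ∈ {R : HOS K | R.under (𝓞 k) = q} := by rw [hset]; exact Set.mem_insert _ _
      exact this
    have hP' : P'.under (𝓞 k) = q := by
      have : P' ∈ {R : HOS K | R.under (𝓞 k) = q} := by
        rw [hset]; exact Set.mem_insert_of_mem _ rfl
      exact this
    have hX : ∀ x ∈ Ml c {P : HOS K | P.under (𝓞 k) ≠ q} ∅, P.valuation K (x : K) ≤ 1 :=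
      fun x hx => (hval x hx P hP).le
    have h1 := RSX_index P (Ml c {P : HOS K | P.under (𝓞 k) ≠ q} ∅)
      (Ml c {P : HOS K | P.under (𝓞 k) ≠ q} {P : HOS K | P.under (𝓞 k) = q}) hX
      (fun x hx hx1 => by
        refine ⟨hx.1, hx.2.1, fun R hR => ?_⟩
        rw [hset] at hR
        rcases hR with rfl | hR
        · exact hx1
        · rw [Set.mem_singleton_iff] at hR
          rw [hR]
          have h2 := (o6 c P ((x : K) - 1)).1
          rw [← hcc, hact, hcc] at h2
          rw [← h2] at hx1
          have h3 : (x : K) - 1 = -(x : K) * (c ((x : K) - 1)) := by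
            have h4 : (x : K) * c x = 1 := hx.1
            rw [map_sub, map_one]
            linear_combination h4
          rw [h3, map_mul, Valuation.map_neg, hval x hx P' hP', one_mul]
          exact hx1)
      (fun x _ hx => hx.2.2 P hP)
    rw [ht, h1]
    have htop : (RES_hom P (Ml c {P : HOS K | P.under (𝓞 k) ≠ q} ∅) hX).range = ⊤ := by
      rw [eq_top_iff]
      rintro a -
      obtain ⟨a₀, ha₀⟩ := Ideal.Quotient.mk_surjective (a : 𝓞 K ⧸ P.asIdeal)
      have hcop : IsCoprime P.asIdeal P'.asIdeal := by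
        have hmP := P.isMaximal
        have hmP' := P'.isMaximal
        refine Ideal.isCoprime_iff_sup_eq.2 (hmP.coprime_of_ne hmP' ?_)
        intro h0
        exact hne (HeightOneSpectrum.ext h0)
      obtain ⟨i, hi, j, hj, hij⟩ := Ideal.isCoprime_iff_exists.1 hcop
      set y : 𝓞 K := a₀ * j + i with hy
      have hmkj : Ideal.Quotient.mk P.asIdeal j = 1 := by
        rw [← map_one (Ideal.Quotient.mk P.asIdeal), Ideal.Quotient.eq]
        have : j - 1 = -i := by rw [← hij]; ring
        rw [this]
        exact neg_mem hi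
      have hmky : Ideal.Quotient.mk P.asIdeal y = a := by
        rw [hy, map_add, map_mul, hmkj, mul_one, ha₀, Ideal.Quotient.eq_zero_iff_mem.2 hi, add_zero]
      have hy1 : y - 1 ∈ P'.asIdeal := by
        have : y - 1 = (a₀ - 1) * j := by
          rw [hy]
          have h5 : i = 1 - j := by rw [← hij]; ring
          rw [h5]; ring
        rw [this]
        exact P'.asIdeal.mul_mem_left _ hj
      have hyP : y ∉ P.asIdeal := by
        intro h0
        have h5 := Ideal.Quotient.eq_zero_iff_mem.2 h0
        rw [hmky] at h5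
        have hmP := P.isMaximal
        have : Nontrivial (𝓞 K ⧸ P.asIdeal) := Ideal.Quotient.nontrivial_iff.2 hmP.ne_top
        exact a.ne_zero h5
      have hyP' : y ∉ P'.asIdeal := by
        intro h0
        have h5 : (1 : 𝓞 K) ∈ P'.asIdeal := by
          have : (1 : 𝓞 K) = y - (y - 1) := by ring
          rw [this]
          exact sub_mem h0 hy1
        exact P'.isPrime.ne_top ((Ideal.eq_top_iff_one _).2 h5)
      set z : 𝓞 K := RingOfIntegers.mapRingEquiv c y with hz
      have hzc : (z : K) = c (y : K) := rfl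
      have vP := RSX_val P y hyP
      have vP' := RSX_val P' y hyP'
      have vzP : P.valuation K (z : K) = 1 := by
        have h2 := (o6 c P' (y : K)).1
        rw [← hcc, hact', hcc] at h2
        rw [hzc, h2, vP']
      have vzP' : P'.valuation K (z : K) = 1 := by
        have h2 := (o6 c P (y : K)).1
        rw [← hcc, hact, hcc] at h2
        rw [hzc, h2, vP]
      have hy0 : (y : K) ≠ 0 := by
        intro h0
        rw [h0, map_zero] at vP
        exact zero_ne_one vP
      have hz0 : (z : K) ≠ 0 := by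
        intro h0
        rw [h0, map_zero] at vzP
        exact zero_ne_one vzP
      have hne0 : (y : K) / c (y : K) ≠ 0 := by
        rw [← hzc]
        exact div_ne_zero hy0 hz0
      have hmem := RSX_mem c hinv {P : HOS K | P.under (𝓞 k) ≠ q} (y : K) hy0 (fun R hR => by
        have hR' : R ∈ {R : HOS K | R.under (𝓞 k) = q} := not_not.1 hR
        rw [hset] at hR'
        rcases hR' with rfl | hR'
        · exact ⟨vP, vzP⟩
        · rw [Set.mem_singleton_iff] at hR'
          rw [hR']
          exact ⟨vP', vzP'⟩) hne0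
      refine ⟨⟨_, hmem⟩, ?_⟩
      apply Units.ext
      rw [RES_hom_apply]
      have hr := RSX_res P y z vP vzP
      have hmkz : Ideal.Quotient.mk P.asIdeal z = 1 := by
        rw [← map_one (Ideal.Quotient.mk P.asIdeal), Ideal.Quotient.eq,
          ← P.valuation_lt_one_iff_mem (K := K)]
        have h2 := (o6 c P' ((y : K) - 1)).1
        rw [← hcc, hact', hcc] at h2
        have h3 : P'.valuation K ((algebraMap (𝓞 K) K) (y - 1)) < 1 :=
          (P'.valuation_lt_one_iff_mem (K := K) _).2 hy1
        have h4 : (algebraMap (𝓞 K) K) (z - 1) = c ((y : K) - 1) := by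
          rw [map_sub, map_sub, map_one, map_one]
          rfl
        have h5 : (algebraMap (𝓞 K) K) (y - 1) = (y : K) - 1 := by
          rw [map_sub, map_one]
        change P.valuation K ((algebraMap (𝓞 K) K) (z - 1)) < 1
        rw [h4, h2, ← h5]
        exact h3
      rw [hmkz, mul_one, hmky] at hr
      exact hr
    rw [htop]
    have := P.isMaximal
    let : Field (𝓞 K ⧸ P.asIdeal) := Ideal.Quotient.field P.asIdeal
    have h2 : Nat.card (𝓞 K ⧸ P.asIdeal)ˣ = nm P - 1 := by
      rw [Nat.card_units, RES_card]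
    have h3 : Nat.card (⊤ : Subgroup (𝓞 K ⧸ P.asIdeal)ˣ) = nm P - 1 := by
      rw [Subgroup.card_top]
      exact h2
    rw [h3, hn]
    have h4 : 1 ≤ nm q := le_trans one_le_two (RES_two_le q)
    push_cast [h4]
    ring
  · have hP : P.under (𝓞 k) = q := by
      have : P ∈ {R : HOS K | R.under (𝓞 k) = q} := by rw [hset]; rfl
      exact this
    have hX : ∀ x ∈ Ml c {P : HOS K | P.under (𝓞 k) ≠ q} ∅, P.valuation K (x : K) ≤ 1 :=
      fun x hx => (hval x hx P hP).le
    have h1 := RSX_index P (Ml c {P : HOS K | P.under (𝓞 k) ≠ q} ∅)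
      (Ml c {P : HOS K | P.under (𝓞 k) ≠ q} {P : HOS K | P.under (𝓞 k) = q}) hX
      (fun x hx hx1 => by
        refine ⟨hx.1, hx.2.1, fun R hR => ?_⟩
        rw [hset, Set.mem_singleton_iff] at hR
        rw [hR]
        exact hx1)
      (fun x _ hx => hx.2.2 P hP)
    rw [ht, h1] at hdvd
    rw [ht, h1]
    rw [sub_neg_eq_add] at hdvd ⊢
    have hd1 : Nat.card (RES_hom P (Ml c {P : HOS K | P.under (𝓞 k) ≠ q} ∅) hX).range ∣ nm q + 1 := by
      exact_mod_cast hdvd
    have hd2 : nm q + 1 ∣ Nat.card (RES_hom P (Ml c {P : HOS K | P.under (𝓞 k) ≠ q} ∅) hX).range := by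
      have hmax := P.isMaximal
      let : Field (𝓞 K ⧸ P.asIdeal) := Ideal.Quotient.field P.asIdeal
      have : Finite (𝓞 K ⧸ P.asIdeal) := Nat.finite_of_card_ne_zero (by
        rw [RES_card]
        have := RES_two_le P
        omega)
      have : Fintype (𝓞 K ⧸ P.asIdeal) := Fintype.ofFinite _
      obtain ⟨g, hg⟩ := IsCyclic.exists_ofOrder_eq_natCard (α := (𝓞 K ⧸ P.asIdeal)ˣ)
      have hcard : Nat.card (𝓞 K ⧸ P.asIdeal)ˣ = nm q ^ 2 - 1 := by
        rw [Nat.card_units, RES_card, hn]
      have h2 : 2 ≤ nm q := RES_two_le q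
      -- the power of the generator is in the range
      have hmemg : g ^ (nm q - 1) ∈ (RES_hom P (Ml c {P : HOS K | P.under (𝓞 k) ≠ q} ∅) hX).range := by
        obtain ⟨y, hy⟩ := Ideal.Quotient.mk_surjective (g : 𝓞 K ⧸ P.asIdeal)
        have hyP : y ∉ P.asIdeal := by
          intro h0
          have h5 := Ideal.Quotient.eq_zero_iff_mem.2 h0
          rw [hy] at h5
          exact g.ne_zero h5
        set z : 𝓞 K := RingOfIntegers.mapRingEquiv c y with hz
        have hzc : (z : K) = c (y : K) := rfl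
        have vP := RSX_val P y hyP
        have vzP : P.valuation K (z : K) = 1 := by
          have h2 := (o6 c P (y : K)).1
          rw [← hcc, hact, hcc] at h2
          rw [hzc, h2, vP]
        have hy0 : (y : K) ≠ 0 := by
          intro h0
          rw [h0, map_zero] at vP
          exact zero_ne_one vP
        have hz0 : (z : K) ≠ 0 := by
          intro h0
          rw [h0, map_zero] at vzP
          exact zero_ne_one vzP
        have hne0 : (y : K) / c (y : K) ≠ 0 := by
          rw [← hzc]
          exact div_ne_zero hy0 hz0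
        have hmem := RSX_mem c hinv {P : HOS K | P.under (𝓞 k) ≠ q} (y : K) hy0 (fun R hR => by
          have hR' : R ∈ {R : HOS K | R.under (𝓞 k) = q} := not_not.1 hR
          rw [hset, Set.mem_singleton_iff] at hR'
          rw [hR']
          exact ⟨vP, vzP⟩) hne0
        have hr := RSX_res P y z vP vzP
        have hfrob : Ideal.Quotient.mk P.asIdeal z = Ideal.Quotient.mk P.asIdeal y ^ nm q :=
          RES_frob q P hP hn c' hc' y
        rw [hfrob, hy] at hr
        have h3 : (RES_hom P (Ml c {P : HOS K | P.under (𝓞 k) ≠ q} ∅) hX ⟨_, hmem⟩)⁻¹ =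
            g ^ (nm q - 1) := by
          rw [inv_eq_iff_mul_eq_one]
          apply Units.ext
          rw [Units.val_mul, RES_hom_apply, Units.val_pow_eq_pow_val, Units.val_one]
          have h4 : RES_r P ((y : K) / (z : K)) * (g : 𝓞 K ⧸ P.asIdeal) ^ (nm q - 1) *
              (g : 𝓞 K ⧸ P.asIdeal) = 1 * (g : 𝓞 K ⧸ P.asIdeal) := by
            rw [one_mul, mul_assoc, ← pow_succ, Nat.sub_add_cancel (by omega)]
            exact hr
          exact mul_right_cancel₀ g.ne_zero h4
        rw [← h3]
        exact Subgroup.inv_mem _ ⟨_, rfl⟩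
      have hord : orderOf (g ^ (nm q - 1)) = nm q + 1 := by
        have hfac : nm q ^ 2 - 1 = (nm q - 1) * (nm q + 1) := by
          obtain ⟨t, ht'⟩ : ∃ t, nm q = t + 2 := ⟨nm q - 2, by omega⟩
          rw [ht']
          have e1 : (t + 2) ^ 2 - 1 = (t + 1) * (t + 3) := by
            have : (t + 2) ^ 2 = (t + 1) * (t + 3) + 1 := by ring
            omega
          rw [e1]
          rfl
        rw [orderOf_pow_of_dvd (by omega) (by rw [hg, hcard, hfac]; exact Dvd.intro _ rfl), hg, hcard,
          hfac]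
        exact Nat.mul_div_cancel_left _ (by omega)
      rw [← hord]
      have h5 := orderOf_dvd_natCard (⟨g ^ (nm q - 1), hmemg⟩ :
        (RES_hom P (Ml c {P : HOS K | P.under (𝓞 k) ≠ q} ∅) hX).range)
      rwa [Subgroup.orderOf_mk] at h5
    have h6 := Nat.dvd_antisymm hd1 hd2
    rw [h6]
    push_cast
    ring
  · exact absurd ht hq

end Pool.Agent.RMX
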